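import Mathlib
import Pool.Agent.X198.TauCounter

set_option autoImplicit false

namespace Pool.Agent.Results.MP_4ba7b3_gt.NotCompatible

open Pool.Agent.X198.TauTop Pool.Agent.X198.TauCounter

/-- **The supremum of the topologies `τ_c` need not be compatible.** For some D-sequence `b` the
group `(ℤ, s_b)` has a continuous character whose value at `1` is not of the form `k / b_n`. -/
theorem _root_.Pool.Agent.Results.MP_4ba7b3_gt.NotCompatible.result :
    ∃ b : ℕ → ℕ, IsD b ∧ ∃ t ∈ dual (sTop b), t ∉ HH b := by
  obtain ⟨x, hx, hx'⟩ := exists_limit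
  exact ⟨Q, isD_Q, x, mem_dual hx, not_mem hx'⟩

end Pool.Agent.Results.MP_4ba7b3_gt.NotCompatible
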